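import Pool.Agent.W23.PL.Defs
import Pool.Agent.H442R2.BX.Bk

/-!
PL project (helper23), task BXB: auxiliary lemmas.
-/

namespace Pool.Agent.W500.PL

open Finset
open Pool.Agent.H442R2
open Pool.Agent.H442R2.KF
open Pool.Agent.W23.DC
open Pool.Agent.W23.PL

/-! ### elementary facts on the weights -/

lemma xx_or (P : Finset ℕ) (m : ℤ) : xx P m = 0 ∨ xx P m = 1 := by
  unfold xx
  split_ifs
  · exact Or.inr rfl
  · exact Or.inl rfl

lemma xx_nonneg (P : Finset ℕ) (m : ℤ) : 0 ≤ xx P m := by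
  rcases xx_or P m with h | h <;> rw [h] <;> norm_num

lemma xx_le_one (P : Finset ℕ) (m : ℤ) : xx P m ≤ 1 := by
  rcases xx_or P m with h | h <;> rw [h] <;> norm_num

lemma xx_sq (P : Finset ℕ) (m : ℤ) : xx P m * xx P m = xx P m := by
  rcases xx_or P m with h | h <;> rw [h] <;> norm_num

lemma abs_xx (P : Finset ℕ) (m : ℤ) : |xx P m| ≤ 1 := by
  rw [abs_of_nonneg (xx_nonneg P m)]
  exact xx_le_one P m

lemma Ev_bdd {P : Finset ℕ} {D : ℕ} {U : ℝ} {th : ℕ → ℝ} (h : DW P D U th) (m : ℤ) :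
    |Ev th D m| ≤ D * U := by
  unfold Ev
  have hU : 0 ≤ U := (abs_nonneg _).trans (h.bd 0)
  refine (abs_sum_le_sum_abs _ _).trans ?_
  refine (sum_le_card_nsmul _ _ U (fun e _ => ?_)).trans ?_
  · rw [abs_mul]
    have h1 : |(if (e : ℤ) ∣ m then (1 : ℝ) else 0)| ≤ 1 := by
      split_ifs <;> simp
    calc |th e| * |(if (e : ℤ) ∣ m then (1 : ℝ) else 0)| ≤ U * 1 :=
          mul_le_mul (h.bd e) h1 (abs_nonneg _) hU
      _ = U := mul_one U
  · rw [nsmul_eq_mul, Nat.card_Icc]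
    simp

/-- the coefficients of the constant function -/
noncomputable def th1 (e : ℕ) : ℝ := if e = 1 then 1 else 0

lemma th1_DW (P : Finset ℕ) {D : ℕ} {U : ℝ} (hD : 1 ≤ D) (hU : 1 ≤ U) : DW P D U th1 := by
  refine ⟨fun e => ?_, fun e he => ?_⟩
  · unfold th1
    split_ifs
    · simpa using hU
    · simp only [abs_zero]
      linarith
  · unfold th1 at he
    have he1 : e = 1 := by
      by_contra h
      rw [if_neg h] at he
      exact he rfl
    subst he1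
    refine ⟨squarefree_one, hD, fun p hp hp1 => ?_⟩
    have := Nat.dvd_one.1 hp1
    exact absurd this hp.one_lt.ne'

lemma Ev_th1 {D : ℕ} (hD : 1 ≤ D) (m : ℤ) : Ev th1 D m = 1 := by
  unfold Ev
  rw [sum_eq_single 1]
  · unfold th1
    simp
  · intro e _ he
    unfold th1
    rw [if_neg he, zero_mul]
  · intro h
    exact absurd (mem_Icc.2 ⟨le_rfl, hD⟩) h

lemma hat_th1 {D : ℕ} (hD : 1 ≤ D) : hat th1 D = 1 := by
  unfold hat
  rw [sum_eq_single 1]
  · unfold th1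
    simp
  · intro e _ he
    unfold th1
    rw [if_neg he, zero_div]
  · intro h
    exact absurd (mem_Icc.2 ⟨le_rfl, hD⟩) h

lemma rf_bdd {y : ℝ} {X : ℕ} {c : ℕ → ℝ} (h : BX.CofR y X c) (a n : ℤ) :
    |BX.rf c X a n| ≤ X := by
  unfold BX.rf
  split_ifs
  · simp
  · unfold BX.Rf
    refine (abs_sum_le_sum_abs _ _).trans ?_
    refine (sum_le_card_nsmul _ _ 1 (fun d hd => ?_)).trans ?_
    · rw [mem_Icc] at hd
      have hd0 : (0 : ℝ) < d := by exact_mod_cast hd.1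
      have hd1 : (1 : ℝ) ≤ d := by exact_mod_cast hd.1
      have h1 : |BX.dl d (n - a)| ≤ 1 := by
        unfold BX.dl
        have h2 : (0 : ℝ) < 1 / d := by positivity
        have h3 : (1 : ℝ) / d ≤ 1 := by
          rw [div_le_one hd0]
          exact hd1
        split_ifs
        · rw [abs_of_nonneg (by linarith)]
          linarith
        · rw [zero_sub, abs_neg, abs_of_pos h2]
          exact h3
      rw [abs_mul]
      calc |c d| * |BX.dl d (n - a)| ≤ 1 * 1 :=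
            mul_le_mul (h.bd d) h1 (abs_nonneg _) zero_le_one
        _ = 1 := mul_one 1
    · rw [nsmul_eq_mul, Nat.card_Icc]
      simp

lemma summ_mul {N z : ℕ} {lam : ℕ → ℝ} (hN : 1 ≤ N) (h : BX.SW z lam) {g : ℤ → ℝ} {K : ℝ}
    (hg : ∀ n, |g n| ≤ K) : Summable (fun n : ℤ => Wt N n * BX.nuS lam z n * g n) := by
  refine Summable.of_norm_bounded ((BX.TaskBK.summ_w hN h).mul_right K) (fun n => ?_)
  rw [Real.norm_eq_abs, abs_mul, abs_of_nonneg (BX.TaskBK.w_nonneg N z lam n)]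
  exact mul_le_mul_of_nonneg_left (hg n) (BX.TaskBK.w_nonneg N z lam n)

/-! ### the pointwise inequalities -/

lemma sqrt_bd {u : ℝ} (hu : 1 ≤ u) {K R R' : ℝ} (hK : 0 ≤ K) (h : |R| ≤ K * u ^ (1 / 4 : ℝ))
    (h' : |R'| ≤ K * u ^ (1 / 4 : ℝ)) : |R * R'| ≤ K ^ 2 * u := by
  rw [abs_mul]
  have hu0 : 0 < u := by linarith
  have h1 : u ^ (1 / 4 : ℝ) * u ^ (1 / 4 : ℝ) ≤ u := by
    rw [← Real.rpow_add hu0]
    calc u ^ ((1 / 4 : ℝ) + 1 / 4) ≤ u ^ (1 : ℝ) :=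
          Real.rpow_le_rpow_of_exponent_le hu (by norm_num)
      _ = u := Real.rpow_one u
  have h2 : 0 ≤ u ^ (1 / 4 : ℝ) := Real.rpow_nonneg hu0.le _
  calc |R| * |R'| ≤ (K * u ^ (1 / 4 : ℝ)) * (K * u ^ (1 / 4 : ℝ)) :=
        mul_le_mul h h' (abs_nonneg _) (mul_nonneg hK h2)
    _ = K ^ 2 * (u ^ (1 / 4 : ℝ) * u ^ (1 / 4 : ℝ)) := by ring
    _ ≤ K ^ 2 * u := mul_le_mul_of_nonneg_left h1 (sq_nonneg _)

lemma point_diag {x t W W2 v u K R : ℝ} (hx : x = 0 ∨ x = 1) (hxt : x ≤ t) (hW : 0 ≤ W)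
    (hv : 0 ≤ v) (hu : 1 ≤ u) (hK : 0 ≤ K) (hR : |R| ≤ K * u ^ (1 / 4 : ℝ))
    (hW2 : W * u ≤ 2 * W2) :
    W * v * ((x * R) * (x * R)) ≤ 2 * K ^ 2 * (W2 * v * (t * 1)) := by
  have h1 := sqrt_bd hu hK hR hR
  have h2 : R * R ≤ K ^ 2 * u := (le_abs_self _).trans h1
  have hx0 : 0 ≤ x := by rcases hx with h | h <;> rw [h] <;> norm_num
  have hxx : x * x = x := by rcases hx with h | h <;> rw [h] <;> norm_num
  have hWu : 0 ≤ W2 := by nlinarith
  calc W * v * ((x * R) * (x * R)) = (W * v * (x * x)) * (R * R) := by ring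
    _ = (W * v * x) * (R * R) := by rw [hxx]
    _ ≤ (W * v * x) * (K ^ 2 * u) := mul_le_mul_of_nonneg_left h2 (by positivity)
    _ = K ^ 2 * v * x * (W * u) := by ring
    _ ≤ K ^ 2 * v * x * (2 * W2) := mul_le_mul_of_nonneg_left hW2 (by positivity)
    _ ≤ K ^ 2 * v * t * (2 * W2) := by gcongr
    _ = 2 * K ^ 2 * (W2 * v * (t * 1)) := by ring

lemma point_off {x x' t t' s s' W W2 v u K R R' : ℝ} (hx0 : 0 ≤ x) (hx0' : 0 ≤ x')
    (hxt : x ≤ t) (hxt' : x' ≤ t') (hs : t - x ≤ s) (hs' : t' - x' ≤ s') (hW : 0 ≤ W)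
    (hv : 0 ≤ v) (hu : 1 ≤ u) (hK : 0 ≤ K) (hR : |R| ≤ K * u ^ (1 / 4 : ℝ))
    (hR' : |R'| ≤ K * u ^ (1 / 4 : ℝ)) (hW2 : W * u ≤ 2 * W2) :
    |W * v * ((x * R) * (x' * R')) - W * v * (t * t') * (R * R')| ≤
      2 * K ^ 2 * (W2 * v * (s * t')) + 2 * K ^ 2 * (W2 * v * (t * s')) := by
  have h1 := sqrt_bd hu hK hR hR'
  have h2 : 0 ≤ t * t' - x * x' := by
    have := mul_le_mul hxt hxt' hx0' (hx0.trans hxt)
    linarith
  have h3 : t * t' - x * x' ≤ s * t' + t * s' := by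
    have e : t * t' - x * x' = (t - x) * t' + x * (t' - x') := by ring
    rw [e]
    have a1 : (t - x) * t' ≤ s * t' := mul_le_mul_of_nonneg_right hs (hx0'.trans hxt')
    have a2 : x * (t' - x') ≤ t * s' := by
      apply mul_le_mul hxt hs' (by linarith) (hx0.trans hxt)
    linarith
  have e : W * v * ((x * R) * (x' * R')) - W * v * (t * t') * (R * R') =
      -(W * v * (t * t' - x * x') * (R * R')) := by ring
  rw [e, abs_neg, abs_mul, abs_of_nonneg (by positivity : 0 ≤ W * v * (t * t' - x * x'))]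
  calc W * v * (t * t' - x * x') * |R * R'| ≤ W * v * (t * t' - x * x') * (K ^ 2 * u) :=
        mul_le_mul_of_nonneg_left h1 (by positivity)
    _ = K ^ 2 * v * (t * t' - x * x') * (W * u) := by ring
    _ ≤ K ^ 2 * v * (t * t' - x * x') * (2 * W2) :=
        mul_le_mul_of_nonneg_left hW2 (by positivity)
    _ ≤ K ^ 2 * v * (s * t' + t * s') * (2 * W2) := by
        have hWu : 0 ≤ W2 := by nlinarith
        gcongr
    _ = _ := by ring

/-! ### eventual inequalities -/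

lemma ev_log (C κ s : ℝ) (k : ℕ) (hκ : 0 < κ) (hs : 0 < s) : ∃ N₀ : ℕ, ∀ N : ℕ, N₀ ≤ N →
    C * Real.log N ^ k ≤ κ * (N : ℝ) ^ s := by
  have h1 := isLittleO_log_rpow_rpow_atTop (k : ℝ) hs
  have h2 := h1.bound (show 0 < κ / (|C| + 1) by positivity)
  have h3 := (tendsto_natCast_atTop_atTop (R := ℝ)).eventually h2
  have h4 := h3.and (Filter.eventually_ge_atTop 1)
  obtain ⟨N₀, hN₀⟩ := Filter.eventually_atTop.1 h4
  refine ⟨N₀, fun N hN => ?_⟩
  obtain ⟨h5, h6⟩ := hN₀ N hN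
  have hN1 : (1 : ℝ) ≤ N := by exact_mod_cast h6
  have hL : 0 ≤ Real.log N := Real.log_nonneg hN1
  rw [Real.rpow_natCast, Real.norm_eq_abs, Real.norm_eq_abs, abs_of_nonneg (pow_nonneg hL k),
    abs_of_nonneg (Real.rpow_nonneg (by linarith) _)] at h5
  have h7 : C * Real.log N ^ k ≤ (|C| + 1) * Real.log N ^ k := by
    apply mul_le_mul_of_nonneg_right _ (pow_nonneg hL k)
    linarith [le_abs_self C]
  refine h7.trans ?_
  calc (|C| + 1) * Real.log N ^ k ≤ (|C| + 1) * (κ / (|C| + 1) * (N : ℝ) ^ s) := by gcongr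
    _ = κ * (N : ℝ) ^ s := by field_simp

/-- the error of COR at `N` and at `2N` -/
lemma ev_err (C κ : ℝ) (hC : 0 < C) (hκ : 0 < κ) : ∃ N₀ : ℕ, ∀ N : ℕ, N₀ ≤ N → ∀ B : ℕ, 40 ≤ B →
    ∀ M : ℕ, (M = N ∨ M = 2 * N) →
    C * Real.log N ^ 2 * ((M : ℝ) * Real.log M ^ 20 / Real.log N ^ B + 1) ≤
      κ * (N : ℝ) / Real.log N ^ 3 := by
  obtain ⟨N1, h1⟩ := ev_log C (κ / 2) 1 5 (by positivity) one_pos
  have h2 : ∃ N2 : ℕ, ∀ N : ℕ, N2 ≤ N → max 1 (2 ^ 22 * C / κ) ≤ Real.log N := by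
    have := (Real.tendsto_log_atTop.comp (tendsto_natCast_atTop_atTop (R := ℝ))).eventually_ge_atTop
      (max 1 (2 ^ 22 * C / κ))
    exact Filter.eventually_atTop.1 this
  obtain ⟨N2, h2⟩ := h2
  refine ⟨max N1 (max N2 2), fun N hN B hB M hM => ?_⟩
  have hN1 : N1 ≤ N := (le_max_left _ _).trans hN
  have hN2 : N2 ≤ N := ((le_max_left _ _).trans (le_max_right _ _)).trans hN
  have hN3 : 2 ≤ N := ((le_max_right _ _).trans (le_max_right _ _)).trans hN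
  have hNr : (2 : ℝ) ≤ N := by exact_mod_cast hN3
  have hN0 : (0 : ℝ) < N := by linarith
  have a1 := h1 N hN1
  have a2 := h2 N hN2
  set L := Real.log N with hL
  have hL1 : 1 ≤ L := (le_max_left _ _).trans a2
  have hL2 : 2 ^ 22 * C / κ ≤ L := (le_max_right _ _).trans a2
  have hL0 : 0 < L := by linarith
  have hMN : (M : ℝ) ≤ 2 * N := by
    rcases hM with h | h
    · rw [h]; linarith
    · rw [h]; push_cast; exact le_rfl
  have hM1 : (1 : ℝ) ≤ M := by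
    rcases hM with h | h
    · rw [h]; linarith
    · rw [h]; push_cast; linarith
  have hlM : Real.log M ≤ 2 * L := by
    calc Real.log M ≤ Real.log (2 * N) := Real.log_le_log (by linarith) hMN
      _ = Real.log 2 + L := by rw [Real.log_mul (by norm_num) (by linarith)]
      _ ≤ 2 * L := by
          have : Real.log 2 ≤ L := Real.log_le_log (by norm_num) hNr
          linarith
  have hlM0 : 0 ≤ Real.log M := Real.log_nonneg hM1
  have hLB : L ^ 40 ≤ L ^ B := pow_le_pow_right₀ hL1 hB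
  have b1 : (M : ℝ) * Real.log M ^ 20 / L ^ B ≤ (2 * N) * (2 * L) ^ 20 / L ^ 40 := by
    gcongr
  have b2 : (2 * (N : ℝ)) * (2 * L) ^ 20 / L ^ 40 = 2 ^ 21 * N / L ^ 20 := by
    field_simp
  have b3 : C * L ^ 2 * (2 ^ 21 * N / L ^ 20) ≤ κ / 2 * N / L ^ 3 := by
    rw [div_le_iff₀ hκ] at hL2
    have b4 : 2 ^ 22 * C ≤ L ^ 15 * κ := by
      calc 2 ^ 22 * C ≤ L * κ := hL2
        _ ≤ L ^ 15 * κ := by
            apply mul_le_mul_of_nonneg_right _ hκ.le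
            exact le_self_pow₀ hL1 (by norm_num)
    rw [← mul_div_assoc, div_le_div_iff₀ (by positivity) (by positivity)]
    have e1 : C * L ^ 2 * (2 ^ 21 * N) * L ^ 3 = (2 ^ 22 * C) * (L ^ 5 * N / 2) := by ring
    have e2 : κ / 2 * N * L ^ 20 = (L ^ 15 * κ) * (L ^ 5 * N / 2) := by ring
    rw [e1, e2]
    exact mul_le_mul_of_nonneg_right b4 (by positivity)
  have b4 : C * L ^ 2 ≤ κ / 2 * N / L ^ 3 := by
    rw [le_div_iff₀ (by positivity)]
    rw [Real.rpow_one] at a1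
    linarith [a1, (by ring : C * L ^ 2 * L ^ 3 = C * L ^ 5)]
  calc C * L ^ 2 * ((M : ℝ) * Real.log M ^ 20 / L ^ B + 1)
      ≤ C * L ^ 2 * (2 ^ 21 * N / L ^ 20 + 1) := by
        rw [b2] at b1
        gcongr
    _ = C * L ^ 2 * (2 ^ 21 * N / L ^ 20) + C * L ^ 2 := by ring
    _ ≤ κ / 2 * N / L ^ 3 + κ / 2 * N / L ^ 3 := add_le_add b3 b4
    _ = κ * N / L ^ 3 := by ring

lemma ev_pow (C κ s : ℝ) (hκ : 0 < κ) (hs : 0 < s) : ∃ N₀ : ℕ, ∀ N : ℕ, N₀ ≤ N →
    C * (N : ℝ) ^ (1 - s) ≤ κ * (N : ℝ) / Real.log N ^ 3 := by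
  obtain ⟨N1, h1⟩ := ev_log C κ s 3 hκ hs
  refine ⟨max N1 2, fun N hN => ?_⟩
  have hN1 : N1 ≤ N := (le_max_left _ _).trans hN
  have hN3 : 2 ≤ N := (le_max_right _ _).trans hN
  have hNr : (2 : ℝ) ≤ N := by exact_mod_cast hN3
  have hN0 : (0 : ℝ) < N := by linarith
  have hL0 : 0 < Real.log N := Real.log_pos (by linarith)
  have a1 := h1 N hN1
  rw [le_div_iff₀ (by positivity)]
  have h2 : (N : ℝ) = (N : ℝ) ^ (1 - s) * (N : ℝ) ^ s := by
    rw [← Real.rpow_add hN0]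
    simp
  calc C * (N : ℝ) ^ (1 - s) * Real.log N ^ 3 = (N : ℝ) ^ (1 - s) * (C * Real.log N ^ 3) := by ring
    _ ≤ (N : ℝ) ^ (1 - s) * (κ * (N : ℝ) ^ s) :=
        mul_le_mul_of_nonneg_left a1 (Real.rpow_nonneg hN0.le _)
    _ = κ * ((N : ℝ) ^ (1 - s) * (N : ℝ) ^ s) := by ring
    _ = κ * N := by rw [← h2]

/-- the final constant -/
lemma fin_const {ε₁ A₀ c₁ : ℝ} (hε : 0 < ε₁) (hε1 : ε₁ ≤ 1 / 10) (hc : 0 < c₁) :
    (1496250 / ε₁ ^ 2 * Real.exp (2 * c₁ / ε₁) ^ 2 + 2) *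
      Real.exp (-((A₀ + 4 * c₁ + 10) / ε₁)) ≤ Real.exp (-(A₀ / ε₁)) := by
  set x := 1 / ε₁ with hx
  have hx10 : 10 ≤ x := by
    rw [hx, le_div_iff₀ hε]
    linarith
  have e1 : Real.exp (2 * c₁ / ε₁) ^ 2 = Real.exp (4 * c₁ * x) := by
    rw [← Real.exp_nat_mul]
    congr 1
    rw [hx]
    push_cast
    ring
  have e2 : Real.exp (-((A₀ + 4 * c₁ + 10) / ε₁)) =
      Real.exp (-(A₀ / ε₁)) * (Real.exp (-(4 * c₁ * x)) * Real.exp (-(10 * x))) := by
    rw [← Real.exp_add, ← Real.exp_add]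
    congr 1
    rw [hx]
    ring
  have e3 : 1496250 / ε₁ ^ 2 = 1496250 * x ^ 2 := by
    rw [hx]
    field_simp
  rw [e1, e2, e3]
  set K := Real.exp (4 * c₁ * x) with hK
  have hK1 : 1 ≤ K := Real.one_le_exp (by positivity)
  have hKK : K * Real.exp (-(4 * c₁ * x)) = 1 := by
    rw [hK, ← Real.exp_add]
    simp
  have h1 : 1496250 * x ^ 2 * K + 2 ≤ 1496252 * x ^ 2 * K := by
    have : 1 ≤ x ^ 2 * K := by nlinarith [mul_nonneg (sq_nonneg x) (by linarith : (0:ℝ) ≤ K - 1)]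
    nlinarith
  have h2 : 1496252 * x ^ 2 ≤ Real.exp (10 * x) := by
    have h3 : x ≤ Real.exp x := (by linarith : x ≤ x + 1).trans (Real.add_one_le_exp x)
    have h4 : x ^ 2 ≤ Real.exp x ^ 2 := pow_le_pow_left₀ (by linarith) h3 2
    have h5 : (1496252 : ℝ) ≤ Real.exp x ^ 8 := by
      have h6 : (10 : ℝ) ≤ Real.exp x := hx10.trans h3
      calc (1496252 : ℝ) ≤ 10 ^ 8 := by norm_num
        _ ≤ Real.exp x ^ 8 := pow_le_pow_left₀ (by norm_num) h6 8
    calc 1496252 * x ^ 2 ≤ Real.exp x ^ 8 * Real.exp x ^ 2 := by gcongr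
      _ = Real.exp (10 * x) := by
          rw [← pow_add, ← Real.exp_nat_mul]
          norm_num
  have h3 : 1496252 * x ^ 2 * Real.exp (-(10 * x)) ≤ 1 := by
    calc 1496252 * x ^ 2 * Real.exp (-(10 * x)) ≤ Real.exp (10 * x) * Real.exp (-(10 * x)) := by
          gcongr
      _ = 1 := by
          rw [← Real.exp_add]
          simp
  set a := Real.exp (-(A₀ / ε₁)) with ha
  have ha0 : 0 < a := Real.exp_pos _
  set b := Real.exp (-(4 * c₁ * x)) with hb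
  have hb0 : 0 < b := Real.exp_pos _
  set d := Real.exp (-(10 * x)) with hd
  have hd0 : 0 < d := Real.exp_pos _
  calc (1496250 * x ^ 2 * K + 2) * (a * (b * d)) ≤ (1496252 * x ^ 2 * K) * (a * (b * d)) := by
        gcongr
    _ = a * (K * b) * (1496252 * x ^ 2 * d) := by ring
    _ = a * (1496252 * x ^ 2 * d) := by rw [hKK]; ring
    _ ≤ a * 1 := by gcongr
    _ = a := mul_one a

end Pool.Agent.W500.PL
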