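import Pool.Agent.W500.PL.BXB0

/-!
PL project (helper23), task BXB: the Bessel inequality for one block.
-/

namespace Pool.Agent.W500.PL

open Finset
open Pool.Agent.H442R2
open Pool.Agent.H442R2.KF
open Pool.Agent.W23.DC
open Pool.Agent.W23.PL

/-- the diagonal sum -/
lemma diag_le {N z X D : ℕ} {lam c th : ℕ → ℝ} {P : Finset ℕ} {K y U H : ℝ} (hN : 1 ≤ N)
    (hlam : BX.SW z lam) (hGS : BX.St_GS) (hK : 0 ≤ K) (hD : 1 ≤ D) (hU : 1 ≤ U)
    (hc : BX.CofR y X c) (hth : DW P D U th) (hx : ∀ m, xx P m ≤ Ev th D m) (a a' : ℤ)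
    (hR : ∀ n : ℤ, |BX.rf c X a n| ≤ K * (1 + |(n : ℝ)| / N) ^ (1 / 4 : ℝ))
    (hH : ∑' n : ℤ, Wt (2 * N) n * BX.nuS lam z n * (Ev th D (n - a) * Ev th1 D (n - a')) ≤ H) :
    ∑' n : ℤ, Wt N n * BX.nuS lam z n *
      ((xx P (n - a) * BX.rf c X a n) * (xx P (n - a) * BX.rf c X a n)) ≤ 2 * K ^ 2 * H := by
  have hgs := (hGS N hN).1
  have hs1 : Summable (fun n : ℤ => Wt N n * BX.nuS lam z n *
      ((xx P (n - a) * BX.rf c X a n) * (xx P (n - a) * BX.rf c X a n))) := by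
    refine summ_mul (K := (X : ℝ) * X) hN hlam (fun n => ?_)
    have h1 : |xx P (n - a) * BX.rf c X a n| ≤ X := by
      rw [abs_mul]
      calc |xx P (n - a)| * |BX.rf c X a n| ≤ 1 * X :=
            mul_le_mul (abs_xx _ _) (rf_bdd hc a n) (abs_nonneg _) zero_le_one
        _ = X := one_mul _
    rw [abs_mul]
    exact mul_le_mul h1 h1 (abs_nonneg _) (Nat.cast_nonneg _)
  have hs2 : Summable (fun n : ℤ => Wt (2 * N) n * BX.nuS lam z n *
      (Ev th D (n - a) * Ev th1 D (n - a'))) := by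
    refine summ_mul (K := (D * U) * (D * U)) (by omega) hlam (fun n => ?_)
    rw [abs_mul]
    have hDU : 0 ≤ (D : ℝ) * U := by positivity
    exact mul_le_mul (Ev_bdd hth _) (Ev_bdd (th1_DW P hD hU) _) (abs_nonneg _) hDU
  calc ∑' n : ℤ, Wt N n * BX.nuS lam z n *
        ((xx P (n - a) * BX.rf c X a n) * (xx P (n - a) * BX.rf c X a n))
      ≤ ∑' n : ℤ, 2 * K ^ 2 * (Wt (2 * N) n * BX.nuS lam z n *
          (Ev th D (n - a) * Ev th1 D (n - a'))) := by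
        refine hs1.tsum_le_tsum (fun n => ?_) (hs2.mul_left _)
        rw [Ev_th1 hD]
        have hu : (1 : ℝ) ≤ 1 + |(n : ℝ)| / N := by
          have : 0 ≤ |(n : ℝ)| / N := by positivity
          linarith
        exact point_diag (xx_or _ _) (hx _) (Real.exp_nonneg _) (sq_nonneg _) hu hK (hR n) (hgs n)
    _ = 2 * K ^ 2 * ∑' n : ℤ, (Wt (2 * N) n * BX.nuS lam z n *
          (Ev th D (n - a) * Ev th1 D (n - a'))) := tsum_mul_left
    _ ≤ 2 * K ^ 2 * H := mul_le_mul_of_nonneg_left hH (by positivity)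

/-- the off-diagonal sums -/
lemma off_le {N z X D : ℕ} {lam c c' th dl : ℕ → ℝ} {P : Finset ℕ} {K y U H O : ℝ} (hN : 1 ≤ N)
    (hlam : BX.SW z lam) (hGS : BX.St_GS) (hK : 0 ≤ K)
    (hc : BX.CofR y X c) (hc' : BX.CofR y X c') (hth : DW P D U th) (hdl : DW P D U dl)
    (hx : ∀ m, xx P m ≤ Ev th D m ∧ Ev th D m - xx P m ≤ Ev dl D m) (a a' : ℤ)
    (hR : ∀ n : ℤ, |BX.rf c X a n| ≤ K * (1 + |(n : ℝ)| / N) ^ (1 / 4 : ℝ))
    (hR' : ∀ n : ℤ, |BX.rf c' X a' n| ≤ K * (1 + |(n : ℝ)| / N) ^ (1 / 4 : ℝ))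
    (hO : |∑' n : ℤ, Wt N n * BX.nuS lam z n * (Ev th D (n - a) * Ev th D (n - a')) *
      (BX.rf c X a n * BX.rf c' X a' n)| ≤ O)
    (hH : ∑' n : ℤ, Wt (2 * N) n * BX.nuS lam z n * (Ev dl D (n - a) * Ev th D (n - a')) ≤ H)
    (hH' : ∑' n : ℤ, Wt (2 * N) n * BX.nuS lam z n * (Ev th D (n - a) * Ev dl D (n - a')) ≤ H) :
    |∑' n : ℤ, Wt N n * BX.nuS lam z n *
      ((xx P (n - a) * BX.rf c X a n) * (xx P (n - a') * BX.rf c' X a' n))| ≤
      O + 4 * K ^ 2 * H := by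
  have hgs := (hGS N hN).1
  have hU : 0 ≤ U := (abs_nonneg _).trans (hth.bd 0)
  have hDU : 0 ≤ (D : ℝ) * U := by positivity
  have b1 : ∀ n : ℤ, |xx P (n - a) * BX.rf c X a n| ≤ X := by
    intro n
    rw [abs_mul]
    calc |xx P (n - a)| * |BX.rf c X a n| ≤ 1 * X :=
          mul_le_mul (abs_xx _ _) (rf_bdd hc a n) (abs_nonneg _) zero_le_one
      _ = X := one_mul _
  have b2 : ∀ n : ℤ, |xx P (n - a') * BX.rf c' X a' n| ≤ X := by
    intro n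
    rw [abs_mul]
    calc |xx P (n - a')| * |BX.rf c' X a' n| ≤ 1 * X :=
          mul_le_mul (abs_xx _ _) (rf_bdd hc' a' n) (abs_nonneg _) zero_le_one
      _ = X := one_mul _
  have hs1 : Summable (fun n : ℤ => Wt N n * BX.nuS lam z n *
      ((xx P (n - a) * BX.rf c X a n) * (xx P (n - a') * BX.rf c' X a' n))) := by
    refine summ_mul (K := (X : ℝ) * X) hN hlam (fun n => ?_)
    rw [abs_mul]
    exact mul_le_mul (b1 n) (b2 n) (abs_nonneg _) (Nat.cast_nonneg _)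
  have hs2 : Summable (fun n : ℤ => Wt N n * BX.nuS lam z n *
      (Ev th D (n - a) * Ev th D (n - a')) * (BX.rf c X a n * BX.rf c' X a' n)) := by
    have h1 : Summable (fun n : ℤ => Wt N n * BX.nuS lam z n *
      ((Ev th D (n - a) * Ev th D (n - a')) * (BX.rf c X a n * BX.rf c' X a' n))) := by
      refine summ_mul (K := ((D * U) * (D * U)) * ((X : ℝ) * X)) hN hlam (fun n => ?_)
      rw [abs_mul, abs_mul, abs_mul]
      have h2 : |Ev th D (n - a)| * |Ev th D (n - a')| ≤ (D * U) * (D * U) :=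
        mul_le_mul (Ev_bdd hth _) (Ev_bdd hth _) (abs_nonneg _) hDU
      have h3 : |BX.rf c X a n| * |BX.rf c' X a' n| ≤ (X : ℝ) * X :=
        mul_le_mul (rf_bdd hc _ _) (rf_bdd hc' _ _) (abs_nonneg _) (Nat.cast_nonneg _)
      exact mul_le_mul h2 h3 (by positivity) (by positivity)
    refine h1.congr (fun n => ?_)
    ring
  have hs3 : Summable (fun n : ℤ => Wt (2 * N) n * BX.nuS lam z n *
      (Ev dl D (n - a) * Ev th D (n - a'))) := by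
    refine summ_mul (K := (D * U) * (D * U)) (by omega) hlam (fun n => ?_)
    rw [abs_mul]
    exact mul_le_mul (Ev_bdd hdl _) (Ev_bdd hth _) (abs_nonneg _) hDU
  have hs4 : Summable (fun n : ℤ => Wt (2 * N) n * BX.nuS lam z n *
      (Ev th D (n - a) * Ev dl D (n - a'))) := by
    refine summ_mul (K := (D * U) * (D * U)) (by omega) hlam (fun n => ?_)
    rw [abs_mul]
    exact mul_le_mul (Ev_bdd hth _) (Ev_bdd hdl _) (abs_nonneg _) hDU
  have key : |∑' n : ℤ, Wt N n * BX.nuS lam z n *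
      ((xx P (n - a) * BX.rf c X a n) * (xx P (n - a') * BX.rf c' X a' n)) -
      ∑' n : ℤ, Wt N n * BX.nuS lam z n * (Ev th D (n - a) * Ev th D (n - a')) *
      (BX.rf c X a n * BX.rf c' X a' n)| ≤ 2 * K ^ 2 * H + 2 * K ^ 2 * H := by
    rw [← hs1.tsum_sub hs2]
    have hs5 := (hs3.mul_left (2 * K ^ 2)).add (hs4.mul_left (2 * K ^ 2))
    have h1 : ∀ n : ℤ, |Wt N n * BX.nuS lam z n *
      ((xx P (n - a) * BX.rf c X a n) * (xx P (n - a') * BX.rf c' X a' n)) -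
      Wt N n * BX.nuS lam z n * (Ev th D (n - a) * Ev th D (n - a')) *
      (BX.rf c X a n * BX.rf c' X a' n)| ≤
      2 * K ^ 2 * (Wt (2 * N) n * BX.nuS lam z n * (Ev dl D (n - a) * Ev th D (n - a'))) +
      2 * K ^ 2 * (Wt (2 * N) n * BX.nuS lam z n * (Ev th D (n - a) * Ev dl D (n - a'))) := by
      intro n
      have hu : (1 : ℝ) ≤ 1 + |(n : ℝ)| / N := by
        have : 0 ≤ |(n : ℝ)| / N := by positivity
        linarith
      exact point_off (xx_nonneg _ _) (xx_nonneg _ _) (hx _).1 (hx _).1 (hx _).2 (hx _).2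
        (Real.exp_nonneg _) (sq_nonneg _) hu hK (hR n) (hR' n) (hgs n)
    have h2 := tsum_of_norm_bounded hs5.hasSum (fun n => by
      rw [Real.norm_eq_abs]
      exact h1 n)
    rw [Real.norm_eq_abs] at h2
    refine h2.trans ?_
    rw [(hs3.mul_left (2 * K ^ 2)).tsum_add (hs4.mul_left (2 * K ^ 2)), tsum_mul_left,
      tsum_mul_left]
    have hk : 0 ≤ 2 * K ^ 2 := by positivity
    exact add_le_add (mul_le_mul_of_nonneg_left hH hk) (mul_le_mul_of_nonneg_left hH' hk)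
  have h3 := abs_sub_abs_le_abs_sub (∑' n : ℤ, Wt N n * BX.nuS lam z n *
      ((xx P (n - a) * BX.rf c X a n) * (xx P (n - a') * BX.rf c' X a' n)))
      (∑' n : ℤ, Wt N n * BX.nuS lam z n * (Ev th D (n - a) * Ev th D (n - a')) *
      (BX.rf c X a n * BX.rf c' X a' n))
  linarith

/-- the final computation, numbers only -/
lemma num {y V K ρ ε₁ Fs G O SY Sa E c : ℝ} (hy : 0 < y) (hV : 0 < V) (hK : 1 ≤ K) (hρ : 0 < ρ)
    (hε : 0 < ε₁) (hε1 : ε₁ ≤ 1) (hc : 0 ≤ c) (hFs0 : 0 ≤ Fs) (hFs : Fs ≤ 225 / ε₁ * y)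
    (hG : G = 66 / ε₁ * K ^ 2 * (y * V)) (hO : O = 133 / ε₁ * K ^ 2 * (ρ * V ^ 2 * y))
    (hSY : SY ≤ 25 * Fs * (G + c * O)) (hE : E ^ 2 ≤ ρ * V ^ 2 * y ^ 2)
    (hSa : Sa ≤ 2 * SY + 2 * c * E ^ 2) :
    Sa ≤ y ^ 2 * (742500 / ε₁ ^ 2 * K ^ 2 * V +
      (1496250 / ε₁ ^ 2 * K ^ 2 + 2) * ρ * V ^ 2 * c) := by
  have hG0 : 0 ≤ G := by rw [hG]; positivity
  have hO0 : 0 ≤ O := by rw [hO]; positivity
  calc Sa ≤ 2 * SY + 2 * c * E ^ 2 := hSa
    _ ≤ 2 * (25 * Fs * (G + c * O)) + 2 * c * (ρ * V ^ 2 * y ^ 2) := by gcongr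
    _ ≤ 2 * (25 * (225 / ε₁ * y) * (G + c * O)) + 2 * c * (ρ * V ^ 2 * y ^ 2) := by gcongr
    _ = _ := by
        rw [hG, hO]
        field_simp
        ring

theorem BXB (hFLW : St_FLW) (hCOR : St_COR) (hPBX : St_PBX) (hOFD : St_OFD) (hVLB : St_VLB)
    (hDU : BX.St_DU) (hPR : BX.St_PR) (hWXS : St_WXS) (hGS : BX.St_GS) : St_BXB := by
  classical
  intro θ δ A₀ hθ hθ2 hδ hA₀
  obtain ⟨ε₀, η₀, hε₀, hη₀, hη₀40, ofd⟩ := hOFD θ δ hθ hθ2 hδ
  obtain ⟨c₁, hc₁, pbx⟩ := hPBX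
  obtain ⟨εF, hεF, flw⟩ := hFLW η₀ (A₀ + 4 * c₁ + 10) hη₀ (by positivity)
  obtain ⟨CC, NC, hCC, cor⟩ := hCOR
  obtain ⟨c₂, hc₂, vlb⟩ := hVLB
  refine ⟨ε₀, min εF (min (1 / 10) (2 * η₀)), hε₀,
    lt_min hεF (lt_min (by norm_num) (by positivity)), ?_⟩
  intro ε₁ hε₁ hε₁s
  have hεF1 : ε₁ ≤ εF := hε₁s.trans (min_le_left _ _)
  have hε10 : ε₁ ≤ 1 / 10 := hε₁s.trans ((min_le_right _ _).trans (min_le_left _ _))
  have hεη : ε₁ ≤ 2 * η₀ := hε₁s.trans ((min_le_right _ _).trans (min_le_right _ _))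
  have hε1 : ε₁ ≤ 1 := hε10.trans (by norm_num)
  obtain ⟨η, CO, hη, hCO, ofd1⟩ := ofd ε₁ hε₁ hε1
  obtain ⟨N1, pbx1⟩ := pbx (ε₁ / 2) (by positivity) (by linarith only [hε1])
  obtain ⟨N2, C3, hC3, pr⟩ := hPR (ε₁ / 2) (by positivity)
  obtain ⟨K, hKdef⟩ : ∃ K : ℝ, K = Real.exp (2 * c₁ / ε₁) := ⟨_, rfl⟩
  have hK1 : 1 ≤ K := by
    rw [hKdef]
    exact Real.one_le_exp (by positivity)
  have hKe : Real.exp (c₁ / (ε₁ / 2)) = K := by
    rw [hKdef]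
    congr 1
    field_simp
  refine ⟨742500 / ε₁ ^ 2 * K ^ 2, by positivity, ?_⟩
  intro B hB
  obtain ⟨N3, flw1⟩ := flw ε₁ hε₁ hεF1 B (by omega)
  obtain ⟨N4, vlb1⟩ := vlb B (by omega) ε₁ hε₁ hε1
  obtain ⟨ρ, hρdef⟩ : ∃ ρ : ℝ, ρ = Real.exp (-((A₀ + 4 * c₁ + 10) / ε₁)) := ⟨_, rfl⟩
  have hρ0 : 0 < ρ := by rw [hρdef]; exact Real.exp_pos _
  have hρ1 : ρ ≤ 1 := by
    rw [hρdef, Real.exp_le_one_iff]
    have : 0 ≤ (A₀ + 4 * c₁ + 10) / ε₁ := by positivity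
    linarith only [this]
  obtain ⟨κ, hκdef⟩ : ∃ κ : ℝ, κ = min 1 (min c₂ (c₂ ^ 2 * ρ)) := ⟨_, rfl⟩
  have hκ0 : 0 < κ := by
    rw [hκdef]
    exact lt_min one_pos (lt_min hc₂ (by positivity))
  have hκ1 : κ ≤ 1 := by rw [hκdef]; exact min_le_left _ _
  have hκ2 : κ ≤ c₂ := by rw [hκdef]; exact (min_le_right _ _).trans (min_le_left _ _)
  have hκ3 : κ ≤ c₂ ^ 2 * ρ := by rw [hκdef]; exact (min_le_right _ _).trans (min_le_right _ _)
  obtain ⟨n2, hn2, hn2a, hn2b⟩ : ∃ n2 : ℝ, 0 < n2 ∧ n2 ≤ ε₁ / 4 ∧ n2 ≤ 4 / 9 :=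
    ⟨min (ε₁ / 4) (4 / 9), lt_min (by positivity) (by norm_num), min_le_left _ _, min_le_right _ _⟩
  obtain ⟨N5, err⟩ := ev_err CC κ hCC hκ0
  obtain ⟨N6, po⟩ := ev_pow CO κ η hκ0 hη
  obtain ⟨N7, pe⟩ := ev_pow (3 * C3) κ n2 hκ0 hn2
  obtain ⟨N8, hL3⟩ : ∃ N8 : ℕ, ∀ N : ℕ, N8 ≤ N → 3 ≤ Real.log N := by
    have := (Real.tendsto_log_atTop.comp
      (tendsto_natCast_atTop_atTop (R := ℝ))).eventually_ge_atTop 3
    exact Filter.eventually_atTop.1 this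
  obtain ⟨N9, hp2⟩ : ∃ N9 : ℕ, ∀ N : ℕ, N9 ≤ N → (2 : ℝ) ≤ (N : ℝ) ^ (ε₁ / 4) := by
    have := ((tendsto_rpow_atTop (by positivity : 0 < ε₁ / 4)).comp
      (tendsto_natCast_atTop_atTop (R := ℝ))).eventually_ge_atTop 2
    exact Filter.eventually_atTop.1 this
  refine ⟨N1 + N2 + N3 + N4 + N5 + N6 + N7 + N8 + N9 + NC + 2, ?_⟩
  intro N D0 X hN hXθ hD0 hXD f hf 𝒜 h𝒜 T hT
  have hNr : (2 : ℝ) ≤ N := by exact_mod_cast (by omega : 2 ≤ N)
  have hN0 : (0 : ℝ) < N := by linarith only [hNr]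
  have hN1 : (1 : ℝ) ≤ N := by linarith only [hNr]
  obtain ⟨L, hL⟩ : ∃ L : ℝ, L = Real.log N := ⟨_, rfl⟩
  have hL3' : 3 ≤ L := by rw [hL]; exact hL3 N (by omega)
  have hL0 : 0 < L := by linarith only [hL3']
  have hL1 : 1 ≤ L := by linarith only [hL3']
  have hlogL : 1 ≤ Real.log L := by
    rw [Real.le_log_iff_exp_le hL0]
    have := Real.exp_one_lt_d9
    linarith only [this, hL3']
  obtain ⟨P, hPdef⟩ : ∃ P : Finset ℕ, P = P1 N B ε₁ := ⟨_, rfl⟩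
  obtain ⟨V, hVdef⟩ : ∃ V : ℝ, V = VV (P1 N B ε₁) := ⟨_, rfl⟩
  have hVl : c₂ / L ≤ V := by
    have h1 := (vlb1 N (by omega)).1
    rw [← hL, ← hVdef] at h1
    refine le_trans ?_ h1
    rw [div_eq_mul_one_div]
    apply mul_le_mul_of_nonneg_left _ hc₂.le
    rw [div_le_div_iff₀ hL0 (by positivity)]
    have hBr : (1 : ℝ) ≤ B := by exact_mod_cast (by omega : 1 ≤ B)
    have h2 : 1 ≤ (B : ℝ) * Real.log L := by nlinarith only [hBr, hlogL]
    have h3 : ε₁ * L ≤ 1 * L := mul_le_mul_of_nonneg_right hε1 hL0.le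
    have h4 : 1 * L ≤ (B : ℝ) * Real.log L * L := mul_le_mul_of_nonneg_right h2 hL0.le
    linarith only [h3, h4]
  have hV0 : 0 < V := lt_of_lt_of_le (by positivity) hVl
  have hV2 : c₂ ^ 2 / L ^ 2 ≤ V ^ 2 := by
    rw [← div_pow]
    exact pow_le_pow_left₀ (by positivity) hVl 2
  obtain ⟨y, hy⟩ : ∃ y : ℝ, y = N / L := ⟨_, rfl⟩
  have hy0 : 0 < y := by rw [hy]; positivity
  -- the small error
  obtain ⟨e, he⟩ : ∃ e : ℝ, e = κ * N / L ^ 3 := ⟨_, rfl⟩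
  have he0 : 0 ≤ e := by rw [he]; positivity
  have hey : e = κ / L ^ 2 * y := by
    rw [he, hy]
    field_simp
  have he1 : e ≤ ρ * V ^ 2 * y := by
    rw [hey]
    apply mul_le_mul_of_nonneg_right _ hy0.le
    calc κ / L ^ 2 ≤ (c₂ ^ 2 * ρ) / L ^ 2 := by gcongr
      _ = ρ * (c₂ ^ 2 / L ^ 2) := by ring
      _ ≤ ρ * V ^ 2 := by gcongr
  have he2 : e ≤ V * y := by
    rw [hey]
    apply mul_le_mul_of_nonneg_right _ hy0.le
    refine le_trans ?_ hVl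
    calc κ / L ^ 2 ≤ c₂ / L ^ 2 := by gcongr
      _ ≤ c₂ / L := by
          apply div_le_div_of_nonneg_left hc₂.le hL0
          exact le_self_pow₀ hL1 two_ne_zero
  have he3 : e ≤ y := by
    rw [hey]
    have h1 : κ / L ^ 2 ≤ 1 := by
      rw [div_le_one (by positivity)]
      exact hκ1.trans (one_le_pow₀ hL1)
    calc κ / L ^ 2 * y ≤ 1 * y := mul_le_mul_of_nonneg_right h1 hy0.le
      _ = y := one_mul y
  have he4 : e ^ 2 ≤ ρ * V ^ 2 * y ^ 2 := by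
    calc e ^ 2 = e * e := sq e
      _ ≤ (ρ * V ^ 2 * y) * y := mul_le_mul he1 he3 he0 (by positivity)
      _ = _ := by ring
  -- the sets and weights
  obtain ⟨D, hD⟩ : ∃ D : ℕ, D = ⌊(N : ℝ) ^ η₀⌋₊ := ⟨_, rfl⟩
  obtain ⟨th, dl, hth, hdl, hxx, hhat, hhdl⟩ := flw1 N (by omega) D hD
  rw [← hPdef] at hth hdl hxx
  rw [← hVdef, ← hρdef] at hhat hhdl
  rw [← hL] at hth hdl
  have hNη : (1 : ℝ) ≤ (N : ℝ) ^ η₀ := Real.one_le_rpow hN1 hη₀.le
  have hD1 : 1 ≤ D := by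
    rw [hD]
    exact Nat.le_floor (by exact_mod_cast hNη)
  have hDη : (D : ℝ) ≤ (N : ℝ) ^ η₀ := by
    rw [hD]
    exact Nat.floor_le (by positivity)
  have hhat2 : |hat th D| ≤ 2 * V := by
    have h1 : |hat th D| ≤ |hat th D - V| + |V| := by
      have := abs_add_le (hat th D - V) V
      simpa using this
    rw [abs_of_pos hV0] at h1
    have h2 : ρ * V ≤ 1 * V := mul_le_mul_of_nonneg_right hρ1 hV0.le
    linarith only [h1, h2, hhat]
  have hP1 : ∀ p ∈ P, p.Prime ∧ L ^ B ≤ (p : ℝ) := by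
    intro p hp
    rw [hPdef] at hp
    unfold P1 at hp
    rw [mem_filter] at hp
    rw [hL]
    exact ⟨hp.2.1, hp.2.2.1⟩
  have hyB : 2 ≤ L ^ B := by
    calc (2 : ℝ) ≤ L := by linarith only [hL3']
      _ ≤ L ^ B := le_self_pow₀ hL1 (by omega)
  have hyB' : 3 ≤ L ^ B := hL3'.trans (le_self_pow₀ hL1 (by omega))
  have hP2 : ∀ p ∈ P, p.Prime ∧ 2 < p ∧ (p : ℝ) < (N : ℝ) ^ ε₁ := by
    intro p hp
    have h1 := hP1 p hp
    rw [hPdef] at hp
    unfold P1 at hp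
    rw [mem_filter] at hp
    refine ⟨h1.1, ?_, ?_⟩
    · have : (3 : ℝ) ≤ p := hyB'.trans h1.2
      exact_mod_cast (by linarith only [this] : (2 : ℝ) < p)
    · have h2 := hp.2.2.2
      unfold tt at h2
      rw [← hL, div_lt_iff₀ hL0] at h2
      have hp0 : (0 : ℝ) < p := by exact_mod_cast h1.1.pos
      rw [← Real.log_lt_log_iff hp0 (by positivity), Real.log_rpow hN0, ← hL]
      exact h2
  obtain ⟨g, hg⟩ : ∃ g : ℝ, g = (N : ℝ) ^ (ε₁ / 4) := ⟨_, rfl⟩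
  have hg2 : 2 ≤ g := by rw [hg]; exact hp2 N (by omega)
  have hgg : (N : ℝ) ^ (ε₁ / 2) = g * g := by
    rw [hg, ← Real.rpow_add hN0]
    congr 1
    ring
  obtain ⟨z, hz⟩ : ∃ z : ℕ, z = ⌊(N : ℝ) ^ (ε₁ / 2)⌋₊ := ⟨_, rfl⟩
  have hz1 : (z : ℝ) ≤ (N : ℝ) ^ (ε₁ / 2) := by
    rw [hz]
    exact Nat.floor_le (Real.rpow_nonneg hN0.le _)
  have hz2 : (N : ℝ) ^ (ε₁ / 2) < z + 1 := by
    rw [hz]
    exact Nat.lt_floor_add_one _
  have hgz : g ≤ z := by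
    rw [hgg] at hz2
    nlinarith only [hz2, hg2]
  have hz3 : 2 ≤ z := by
    have : (2 : ℝ) ≤ z := hg2.trans hgz
    exact_mod_cast this
  have hlz : ε₁ / 4 * L ≤ Real.log z := by
    rw [hL, ← Real.log_rpow hN0, ← hg]
    exact Real.log_le_log (by linarith only [hg2]) hgz
  have hlz0 : 0 < Real.log z := lt_of_lt_of_le (by positivity) hlz
  have hz4 : (z : ℝ) ≤ (N : ℝ) ^ η₀ :=
    hz1.trans (Real.rpow_le_rpow_of_exponent_le hN1 (by linarith only [hεη]))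
  have hz5 : (z : ℝ) < (N : ℝ) ^ ε₁ := by
    refine lt_of_le_of_lt hz1 ?_
    exact Real.rpow_lt_rpow_of_exponent_lt (by linarith only [hNr]) (by linarith only [hε₁])
  have hXN : X ≤ N := by
    have : (X : ℝ) ≤ N := hXθ.trans (by
      calc (N : ℝ) ^ θ ≤ (N : ℝ) ^ (1 : ℝ) :=
            Real.rpow_le_rpow_of_exponent_le hN1 (by linarith only [hθ2])
        _ = N := Real.rpow_one _)
    exact_mod_cast this
  obtain ⟨lam, hlam⟩ := hWXS z hz3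
  -- COR at `N` and `2N`
  have cu : ∀ M : ℕ, (M = N ∨ M = 2 * N) → ∀ th th' : ℕ → ℝ, DW P D L th → DW P D L th' →
      ∀ a a' : ℤ, a ≠ 0 → a' ≠ 0 → a ≠ a' → |(a : ℝ)| ≤ 2 * N → |(a' : ℝ)| ≤ 2 * N →
      |∑' n : ℤ, Wt M n * BX.nuS lam z n * (Ev th D (n - a) * Ev th' D (n - a')) -
        M * LF lam z * (hat th D * hat th' D)| ≤ e := by
    intro M hM th th' h1 h2 a a' ha ha' haa hab hab'
    have hMN : (N : ℝ) ≤ M := by
      rcases hM with h | h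
      · rw [h]
      · rw [h]; push_cast; linarith only [hN0]
    have hMN' : N ≤ M := by exact_mod_cast hMN
    have hzM : (z : ℝ) ≤ (M : ℝ) ^ (1 / 20 : ℝ) := by
      calc (z : ℝ) ≤ (N : ℝ) ^ (ε₁ / 2) := hz1
        _ ≤ (N : ℝ) ^ (1 / 20 : ℝ) :=
            Real.rpow_le_rpow_of_exponent_le hN1 (by linarith only [hε10])
        _ ≤ (M : ℝ) ^ (1 / 20 : ℝ) := Real.rpow_le_rpow hN0.le hMN (by norm_num)
    have hDM : (D : ℝ) ≤ (M : ℝ) ^ (1 / 20 : ℝ) := by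
      calc (D : ℝ) ≤ (N : ℝ) ^ η₀ := hDη
        _ ≤ (N : ℝ) ^ (1 / 20 : ℝ) :=
            Real.rpow_le_rpow_of_exponent_le hN1 (by linarith only [hη₀40])
        _ ≤ (M : ℝ) ^ (1 / 20 : ℝ) := Real.rpow_le_rpow hN0.le hMN (by norm_num)
    have h3 := cor M (by omega) z D hzM hDM lam hlam P (L ^ B) hyB hP1 L th th' hL0.le h1 h2 a a'
      ha ha' haa (by linarith only [hab, hMN]) (by linarith only [hab', hMN])
    refine h3.trans ?_
    have h4 := err N (by omega) B hB M hM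
    rw [← hL] at h4
    rw [he]
    exact h4
  have ht1 : DW P D L th1 := th1_DW P hD1 hL1
  -- the sum of the weights and `LF`
  have hS1 : |∑' n : ℤ, Wt N n * BX.nuS lam z n - N * LF lam z| ≤ e := by
    have h1 := cu N (Or.inl rfl) th1 th1 ht1 ht1 1 2 one_ne_zero two_ne_zero (by norm_num)
      (by push_cast; rw [abs_one]; linarith only [hNr])
      (by push_cast; rw [abs_of_pos (by norm_num : (0 : ℝ) < 2)]; linarith only [hNr])
    simpa only [Ev_th1 hD1, hat_th1 hD1, mul_one] using h1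
  have hS0 : 0 ≤ ∑' n : ℤ, Wt N n * BX.nuS lam z n :=
    tsum_nonneg fun n => BX.TaskBK.w_nonneg N z lam n
  have hLFu : LF lam z ≤ 8 / (ε₁ * L) := by
    have h1 := hlam.sw.form
    change LF lam z ≤ 2 / Real.log z at h1
    refine h1.trans ?_
    rw [div_le_div_iff₀ hlz0 (by positivity)]
    linarith only [hlz]
  have hLFl : -(8 / (ε₁ * L)) ≤ LF lam z := by
    have h1 := (abs_le.1 hS1).2
    have h2 : -e ≤ N * LF lam z := by linarith only [h1, hS0]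
    have h3 : e ≤ N * (8 / (ε₁ * L)) := by
      refine he3.trans ?_
      rw [hy, div_eq_mul_one_div]
      apply mul_le_mul_of_nonneg_left _ hN0.le
      rw [div_le_div_iff₀ hL0 (by positivity)]
      have h5 : ε₁ * L ≤ 1 * L := mul_le_mul_of_nonneg_right hε1 hL0.le
      linarith only [h5, hL0]
    have h4 : N * (-(8 / (ε₁ * L))) ≤ N * LF lam z := by linarith only [h2, h3]
    exact le_of_mul_le_mul_left h4 hN0
  have hLF : |LF lam z| ≤ 8 / (ε₁ * L) := abs_le.2 ⟨hLFl, hLFu⟩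
  have hNLF : N * |LF lam z| ≤ 8 / ε₁ * y := by
    calc N * |LF lam z| ≤ N * (8 / (ε₁ * L)) := mul_le_mul_of_nonneg_left hLF hN0.le
      _ = 8 / ε₁ * y := by rw [hy]; field_simp
  have hS2 : ∑' n : ℤ, Wt N n * BX.nuS lam z n ≤ 9 / ε₁ * y := by
    have h1 := (abs_le.1 hS1).2
    have h2 : N * LF lam z ≤ N * |LF lam z| := mul_le_mul_of_nonneg_left (le_abs_self _) hN0.le
    have h3 : y ≤ 1 / ε₁ * y := by
      have : 1 ≤ 1 / ε₁ := by rw [le_div_iff₀ hε₁]; linarith only [hε1]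
      calc y = 1 * y := (one_mul y).symm
        _ ≤ 1 / ε₁ * y := mul_le_mul_of_nonneg_right this hy0.le
    have h4 : 9 / ε₁ * y = 8 / ε₁ * y + 1 / ε₁ * y := by ring
    linarith only [h1, h2, h3, h4, hNLF, he3]
  -- upper bounds for the sums at `2N`
  have cu2 : ∀ th th' : ℕ → ℝ, DW P D L th → DW P D L th' →
      ∀ a a' : ℤ, a ≠ 0 → a' ≠ 0 → a ≠ a' → |(a : ℝ)| ≤ 2 * N → |(a' : ℝ)| ≤ 2 * N →
      ∀ h h' : ℝ, 0 ≤ h → |hat th D| ≤ h → |hat th' D| ≤ h' →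
      ∑' n : ℤ, Wt (2 * N) n * BX.nuS lam z n * (Ev th D (n - a) * Ev th' D (n - a')) ≤
        16 / ε₁ * y * (h * h') + e := by
    intro th th' h1 h2 a a' ha ha' haa hab hab' h h' hh0 hh hh'
    have h3 := (abs_le.1 (cu (2 * N) (Or.inr rfl) th th' h1 h2 a a' ha ha' haa hab hab')).2
    have h4 : ((2 * N : ℕ) : ℝ) * LF lam z * (hat th D * hat th' D) ≤
        16 / ε₁ * y * (h * h') := by
      refine (le_abs_self _).trans ?_
      rw [abs_mul, abs_mul, abs_mul, Nat.abs_cast]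
      have h5 : |hat th D| * |hat th' D| ≤ h * h' := mul_le_mul hh hh' (abs_nonneg _) hh0
      have h6 : ((2 * N : ℕ) : ℝ) * |LF lam z| ≤ 16 / ε₁ * y := by
        push_cast
        have : 16 / ε₁ * y = 2 * (8 / ε₁ * y) := by ring
        linarith only [this, hNLF]
      exact mul_le_mul h6 h5 (by positivity) (by positivity)
    linarith only [h3, h4]
  -- coefficients
  have h𝒜' : ∀ a ∈ 𝒜, a ≠ 0 ∧ |(a : ℝ)| ≤ N := by
    intro a ha
    obtain ⟨h1, h2⟩ := h𝒜 a ha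
    refine ⟨h1, h2.trans ?_⟩
    have : 0 ≤ (N : ℝ) ^ (1 / 2 : ℝ) := by positivity
    linarith only [this]
  have hrough : ∀ a ∈ 𝒜, ∀ d ∈ T a, d ≤ X ∧ BX.Rough ((N : ℝ) ^ (ε₁ / 2)) d := by
    intro a ha d hd
    obtain ⟨h1, h2, h3, h4, h5⟩ := hT a ha d hd
    refine ⟨h3, h1, fun p hp hpd => ?_⟩
    have h6 := h4 p hp hpd
    unfold tt at h6
    rw [← hL, le_div_iff₀ hL0] at h6
    have hp0 : (0 : ℝ) < p := by exact_mod_cast hp.pos
    rw [← Real.log_lt_log_iff (by positivity) hp0, Real.log_rpow hN0, ← hL]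
    have h7 : 0 < ε₁ * L := mul_pos hε₁ hL0
    linarith only [h6, h7]
  have hc : ∀ a : ℤ, ∃ c : ℕ → ℝ, a ∈ 𝒜 → (BX.CofR ((N : ℝ) ^ (ε₁ / 2)) X c ∧
      (∀ d, c d ≠ 0 → d ∈ T a) ∧
      ∑ d ∈ T a, |BX.Df (fun p => f p * xx P (p - a)) N a d| ≤
        |∑ p ∈ (Icc 1 N).filter (fun p => p.Prime ∧ z < p), f p * (xx P (p - a) *
          BX.rf c X a p)| + C3 * (z + X + (N : ℝ) ^ (1 - ε₁ / 2 / 2))) := by
    intro a
    by_cases ha : a ∈ 𝒜
    · obtain ⟨c, h1, h2, h3⟩ := pr N z X (by omega) hXN (fun p => f p * xx P (p - a))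
        (fun p => by
          rw [abs_mul]
          calc |f p| * |xx P (p - a)| ≤ 1 * 1 :=
                mul_le_mul (hf p) (abs_xx _ _) (abs_nonneg _) zero_le_one
            _ = 1 := mul_one 1) a (h𝒜' a ha).2 (T a) (hrough a ha)
      refine ⟨c, fun _ => ⟨h1, h2, ?_⟩⟩
      have h4 : ∑ p ∈ (Icc 1 N).filter (fun p => p.Prime ∧ z < p), f p * xx P (p - a) *
          BX.rf c X a p = ∑ p ∈ (Icc 1 N).filter (fun p => p.Prime ∧ z < p), f p *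
          (xx P (p - a) * BX.rf c X a p) := by
        refine sum_congr rfl fun p _ => ?_
        ring
      rw [← h4]
      exact h3
    · exact ⟨0, fun h => absurd h ha⟩
  choose c hc using hc
  have hR : ∀ a ∈ 𝒜, ∀ n : ℤ, |BX.rf (c a) X a n| ≤
      K * (1 + |(n : ℝ)| / N) ^ (1 / 4 : ℝ) := by
    intro a ha n
    have h1 := pbx1 N X (by omega) hXN (c a) (hc a ha).1 a n (h𝒜' a ha).2
    rwa [hKe] at h1
  have hw25 : ∀ p ∈ (Icc 1 N).filter (fun p => p.Prime ∧ z < p),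
      (1 : ℝ) ≤ 25 * (fun n : ℤ => Wt N n * BX.nuS lam z n) (p : ℤ) := by
    intro p hp
    rw [mem_filter, mem_Icc] at hp
    exact BX.TaskBK.w_prime hlam.sw (by omega) hp.2.1 hp.2.2 hp.1.2
  have hFs : ∑ p ∈ (Icc 1 N).filter (fun p => p.Prime ∧ z < p), f p ^ 2 ≤ 225 / ε₁ * y := by
    have h2 : ∑ p ∈ (Icc 1 N).filter (fun p => p.Prime ∧ z < p),
        (Wt N (p : ℤ) * BX.nuS lam z (p : ℤ)) ≤ ∑' n : ℤ, Wt N n * BX.nuS lam z n := by
      have h3 := (BX.TaskBK.summ_w (by omega : 1 ≤ N) hlam.sw).sum_le_tsum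
        (((Icc 1 N).filter (fun p => p.Prime ∧ z < p)).map
          ⟨(fun p : ℕ => (p : ℤ)), Nat.cast_injective⟩)
        (fun n _ => BX.TaskBK.w_nonneg N z lam n)
      rw [sum_map] at h3
      exact h3
    calc ∑ p ∈ (Icc 1 N).filter (fun p => p.Prime ∧ z < p), f p ^ 2
        ≤ ∑ p ∈ (Icc 1 N).filter (fun p => p.Prime ∧ z < p),
            25 * (Wt N (p : ℤ) * BX.nuS lam z (p : ℤ)) := by
          refine sum_le_sum fun p hp => le_trans ?_ (hw25 p hp)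
          rw [← sq_abs]
          exact pow_le_one₀ (abs_nonneg _) (hf p)
      _ = 25 * ∑ p ∈ (Icc 1 N).filter (fun p => p.Prime ∧ z < p),
            (Wt N (p : ℤ) * BX.nuS lam z (p : ℤ)) := by rw [mul_sum]
      _ ≤ 25 * (9 / ε₁ * y) := by
          have := h2.trans hS2
          linarith only [this]
      _ = 225 / ε₁ * y := by ring
  -- `G` and `O`
  obtain ⟨G, hG⟩ : ∃ G : ℝ, G = 66 / ε₁ * K ^ 2 * (y * V) := ⟨_, rfl⟩
  obtain ⟨O, hO⟩ : ∃ O : ℝ, O = 133 / ε₁ * K ^ 2 * (ρ * V ^ 2 * y) := ⟨_, rfl⟩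
  have hG0 : 0 ≤ G := by rw [hG]; positivity
  have hO0 : 0 ≤ O := by rw [hO]; positivity
  have hKK : 1 ≤ K ^ 2 := one_le_pow₀ hK1
  have hone : 1 ≤ 1 / ε₁ := by rw [le_div_iff₀ hε₁]; linarith only [hε1]
  have hGle : ∀ a ∈ 𝒜, ∑' n : ℤ, Wt N n * BX.nuS lam z n *
      ((xx P (n - a) * BX.rf (c a) X a n) * (xx P (n - a) * BX.rf (c a) X a n)) ≤ G := by
    intro a ha
    obtain ⟨a', ha'0, haa', ha'N⟩ : ∃ a' : ℤ, a' ≠ 0 ∧ a ≠ a' ∧ |(a' : ℝ)| ≤ 2 * N := by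
      by_cases h : a = 1
      · refine ⟨2, two_ne_zero, by omega, ?_⟩
        push_cast
        rw [abs_of_pos (by norm_num : (0 : ℝ) < 2)]
        linarith only [hNr]
      · refine ⟨1, one_ne_zero, h, ?_⟩
        push_cast
        rw [abs_one]
        linarith only [hNr]
    have h1 := cu2 th th1 hth ht1 a a' (h𝒜' a ha).1 ha'0 haa'
      ((h𝒜' a ha).2.trans (by linarith only [hN0])) ha'N (2 * V) 1 (by positivity) hhat2
      (by rw [hat_th1 hD1, abs_one])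
    have h2 := diag_le (N := N) (z := z) (X := X) (D := D) (by omega) hlam.sw hGS
      (by linarith only [hK1] : 0 ≤ K) hD1 hL1 (hc a ha).1 hth (fun m => (hxx m).1) a a' (hR a ha) h1
    refine h2.trans ?_
    rw [hG]
    have h3 : 16 / ε₁ * y * (2 * V * 1) + e ≤ 33 / ε₁ * (y * V) := by
      have h4 : 1 * (V * y) ≤ 1 / ε₁ * (V * y) :=
        mul_le_mul_of_nonneg_right hone (by positivity)
      have h5 : 33 / ε₁ * (y * V) = 32 / ε₁ * (y * V) + 1 / ε₁ * (V * y) := by ring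
      have h6 : 16 / ε₁ * y * (2 * V * 1) = 32 / ε₁ * (y * V) := by ring
      linarith only [h4, h5, h6, he2]
    calc 2 * K ^ 2 * (16 / ε₁ * y * (2 * V * 1) + e) ≤ 2 * K ^ 2 * (33 / ε₁ * (y * V)) := by
          gcongr
      _ = 66 / ε₁ * K ^ 2 * (y * V) := by ring
  have hOle : ∀ a ∈ 𝒜, ∀ a' ∈ 𝒜, a ≠ a' → |∑' n : ℤ, Wt N n * BX.nuS lam z n *
      ((xx P (n - a) * BX.rf (c a) X a n) * (xx P (n - a') * BX.rf (c a') X a' n))| ≤ O := by
    intro a ha a' ha' haa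
    have hE0 : ∀ m : ℤ, 0 ≤ Ev th D m := fun m => (xx_nonneg _ _).trans (hxx m).1
    have hab : |(a : ℝ)| ≤ 2 * N := (h𝒜' a ha).2.trans (by linarith only [hN0])
    have hab' : |(a' : ℝ)| ≤ 2 * N := (h𝒜' a' ha').2.trans (by linarith only [hN0])
    have h1 := ofd1 N z D D0 X (by omega) hz4 hz5 hDη hXθ hD0 hXD lam hlam P hP2 th th
      (by rw [← hL]; exact hth) (by rw [← hL]; exact hth) hE0 hE0 a a' (h𝒜 a ha).2 (h𝒜 a' ha').2
      (h𝒜 a ha).1 (h𝒜 a' ha').1 haa (c a) (c a') (hc a ha).1 (hc a' ha').1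
      (fun d hd => hT a ha d ((hc a ha).2.1 d hd))
      (fun d hd => hT a' ha' d ((hc a' ha').2.1 d hd))
    have h2 := po N (by omega)
    rw [← hL, ← he] at h2
    have h3 := cu2 dl th hdl hth a a' (h𝒜' a ha).1 (h𝒜' a' ha').1 haa hab hab' (ρ * V) (2 * V)
      (by positivity) hhdl hhat2
    have h4 := cu2 th dl hth hdl a a' (h𝒜' a ha).1 (h𝒜' a' ha').1 haa hab hab' (2 * V) (ρ * V)
      (by positivity) hhat2 hhdl
    have e4 : 16 / ε₁ * y * (2 * V * (ρ * V)) + e = 16 / ε₁ * y * (ρ * V * (2 * V)) + e := by ring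
    rw [e4] at h4
    have h5 := off_le (N := N) (z := z) (X := X) (D := D) (by omega) hlam.sw hGS
      (by linarith only [hK1] : 0 ≤ K) (hc a ha).1 (hc a' ha').1 hth hdl hxx a a' (hR a ha) (hR a' ha')
      (h1.trans h2) h3 h4
    refine h5.trans ?_
    rw [hO]
    set Q := ρ * V ^ 2 * y with hQ
    have hQ0 : 0 ≤ Q := by rw [hQ]; positivity
    have e1 : 16 / ε₁ * y * (ρ * V * (2 * V)) = 32 / ε₁ * Q := by rw [hQ]; ring
    rw [e1]
    have h6 : 1 * Q ≤ 1 / ε₁ * Q := mul_le_mul_of_nonneg_right hone hQ0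
    have h7 : 32 / ε₁ * Q + e ≤ 33 / ε₁ * Q := by
      have : 33 / ε₁ * Q = 32 / ε₁ * Q + 1 / ε₁ * Q := by ring
      linarith only [this, h6, he1]
    have h8 : e ≤ 1 / ε₁ * K ^ 2 * Q := by
      have h9 : 0 ≤ 1 / ε₁ * Q := by positivity
      have h10 : 1 / ε₁ * Q * 1 ≤ 1 / ε₁ * Q * K ^ 2 := mul_le_mul_of_nonneg_left hKK h9
      have h11 : 1 / ε₁ * K ^ 2 * Q = 1 / ε₁ * Q * K ^ 2 := by ring
      linarith only [h6, h10, h11, he1]
    calc e + 4 * K ^ 2 * (32 / ε₁ * Q + e) ≤ 1 / ε₁ * K ^ 2 * Q + 4 * K ^ 2 * (33 / ε₁ * Q) := by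
          gcongr
      _ = 133 / ε₁ * K ^ 2 * Q := by ring
  have hdu := hDU (fun n : ℤ => Wt N n * BX.nuS lam z n) (fun n => BX.TaskBK.w_nonneg N z lam n)
    ((Icc 1 N).filter (fun p => p.Prime ∧ z < p)) hw25 𝒜
    (fun a n => xx P (n - a) * BX.rf (c a) X a n) f
    (fun a ha a' ha' => by
      refine summ_mul (K := (X : ℝ) * X) (by omega) hlam.sw (fun n => ?_)
      have b : ∀ a ∈ 𝒜, |xx P (n - a) * BX.rf (c a) X a n| ≤ X := by
        intro a ha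
        rw [abs_mul]
        calc |xx P (n - a)| * |BX.rf (c a) X a n| ≤ 1 * X :=
              mul_le_mul (abs_xx _ _) (rf_bdd (hc a ha).1 a n) (abs_nonneg _) zero_le_one
          _ = X := one_mul _
      rw [abs_mul]
      exact mul_le_mul (b a ha) (b a' ha') (abs_nonneg _) (Nat.cast_nonneg _))
    G O hGle hG0 hO0 hOle
  -- the error on the prime side
  obtain ⟨E, hEe⟩ : ∃ E : ℝ, E = C3 * (z + X + (N : ℝ) ^ (1 - ε₁ / 2 / 2)) := ⟨_, rfl⟩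
  have hE0 : 0 ≤ E := by rw [hEe]; positivity
  have hE : E ≤ e := by
    have h1 : (z : ℝ) ≤ (N : ℝ) ^ (1 - n2) :=
      hz1.trans (Real.rpow_le_rpow_of_exponent_le hN1 (by linarith only [hn2b, hε1]))
    have h2 : (X : ℝ) ≤ (N : ℝ) ^ (1 - n2) :=
      hXθ.trans (Real.rpow_le_rpow_of_exponent_le hN1 (by linarith only [hn2b, hθ2]))
    have h3 : (N : ℝ) ^ (1 - ε₁ / 2 / 2) ≤ (N : ℝ) ^ (1 - n2) :=
      Real.rpow_le_rpow_of_exponent_le hN1 (by linarith only [hn2a])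
    have h4 := pe N (by omega)
    rw [← hL, ← he] at h4
    refine le_trans ?_ h4
    rw [hEe]
    calc C3 * (z + X + (N : ℝ) ^ (1 - ε₁ / 2 / 2))
        ≤ C3 * ((N : ℝ) ^ (1 - n2) + (N : ℝ) ^ (1 - n2) + (N : ℝ) ^ (1 - n2)) := by gcongr
      _ = 3 * C3 * (N : ℝ) ^ (1 - n2) := by ring
  have hE2 : E ^ 2 ≤ ρ * V ^ 2 * y ^ 2 := (pow_le_pow_left₀ hE0 hE 2).trans he4
  have hSa : ∑ a ∈ 𝒜, (∑ d ∈ T a, |BX.Df (fun p => f p * xx P (p - a)) N a d|) ^ 2 ≤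
      2 * (∑ a ∈ 𝒜, (∑ p ∈ (Icc 1 N).filter (fun p => p.Prime ∧ z < p),
        f p * (fun (a n : ℤ) => xx P (n - a) * BX.rf (c a) X a n) a p) ^ 2) +
        2 * 𝒜.card * E ^ 2 := by
    calc ∑ a ∈ 𝒜, (∑ d ∈ T a, |BX.Df (fun p => f p * xx P (p - a)) N a d|) ^ 2
        ≤ ∑ a ∈ 𝒜, (2 * (∑ p ∈ (Icc 1 N).filter (fun p => p.Prime ∧ z < p),
            f p * (fun (a n : ℤ) => xx P (n - a) * BX.rf (c a) X a n) a p) ^ 2 + 2 * E ^ 2) := by
          refine sum_le_sum fun a ha => ?_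
          have h1 := (hc a ha).2.2
          rw [← hEe] at h1
          have h2 := pow_le_pow_left₀ (sum_nonneg fun d _ => abs_nonneg _) h1 2
          exact h2.trans (BX.TaskBK.two_sq _ _)
      _ = _ := by
          rw [sum_add_distrib, ← mul_sum, sum_const, nsmul_eq_mul]
          ring
  have hfin := num hy0 hV0 hK1 hρ0 hε₁ hε1 (Nat.cast_nonneg 𝒜.card)
    (sum_nonneg fun p _ => sq_nonneg _) hFs hG hO hdu hE2 hSa
  rw [← hPdef, ← hL, ← hy]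
  rw [hPdef, ← hVdef] at *
  refine hfin.trans ?_
  apply mul_le_mul_of_nonneg_left _ (sq_nonneg _)
  have h1 := fin_const (A₀ := A₀) hε₁ hε10 hc₁
  rw [← hKdef, ← hρdef] at h1
  have h2 : (1496250 / ε₁ ^ 2 * K ^ 2 + 2) * ρ * V ^ 2 * (𝒜.card : ℝ) ≤
      Real.exp (-(A₀ / ε₁)) * V ^ 2 * 𝒜.card := by
    gcongr
  linarith only [h2]

end Pool.Agent.W500.PL
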